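import Pool.Agent.Helper86.LT.Lie

/-!
# Tuples of operators which kill all Tate forms
-/

set_option autoImplicit false
set_option linter.unusedSectionVars false

namespace Pool.Agent.Helper86.OP

open Module Pool.Agent.V1141.OF Pool.Agent.V1141.SO Pool.Agent.Helper86.LT
open Pool.Agent.H204R3.CM Pool.Agent.H204R3.SP Pool.Agent.H204R3.GP
open Pool.Agent.Y137.MV (IsEqv kills_zero kills_add kills_smul kills_conj eqv_pull)

noncomputable section

section tot

variable {k : Type} [Field k] {A : Type} {W : A → Type}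
  [∀ a, AddCommGroup (W a)] [∀ a, Module k (W a)]

/-- The operator on the product given by a tuple of operators. -/
def tot (Z : ∀ a, Module.End k (W a)) : Module.End k (∀ a, W a) :=
  LinearMap.pi fun a => (Z a).comp (LinearMap.proj a)

theorem tot_apply (Z : ∀ a, Module.End k (W a)) (v : ∀ a, W a) (a : A) : tot Z v a = Z a (v a) :=
  rfl

theorem tot_mul (Y Z : ∀ a, Module.End k (W a)) : tot (fun a => Y a * Z a) = tot Y * tot Z := rfl

theorem tot_add (Y Z : ∀ a, Module.End k (W a)) : tot (fun a => Y a + Z a) = tot Y + tot Z := rfl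

theorem tot_sub (Y Z : ∀ a, Module.End k (W a)) : tot (fun a => Y a - Z a) = tot Y - tot Z := rfl

theorem tot_smul (c : k) (Z : ∀ a, Module.End k (W a)) : tot (fun a => c • Z a) = c • tot Z := rfl

theorem tot_zero : tot (fun a => (0 : Module.End k (W a))) = 0 := rfl

theorem tot_one : tot (fun a => (1 : Module.End k (W a))) = 1 := rfl

theorem tot_pow (Z : ∀ a, Module.End k (W a)) (n : ℕ) : tot (fun a => Z a ^ n) = tot Z ^ n := by
  induction n with
  | zero => rfl
  | succ n ih =>
    rw [pow_succ, ← ih, ← tot_mul]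
    rfl

theorem tot_sum (Z : ℕ → ∀ a, Module.End k (W a)) (s : Finset ℕ) :
    tot (fun a => ∑ n ∈ s, Z n a) = ∑ n ∈ s, tot (Z n) := by
  classical
  induction s using Finset.induction_on with
  | empty => rfl
  | insert n s hn ih =>
    rw [Finset.sum_insert hn, ← ih, ← tot_add]
    refine congrArg tot (funext fun a => ?_)
    rw [Finset.sum_insert hn]

theorem sumRep_tot {Γ : Type} [Group Γ] (ρ : ∀ a, Representation k Γ (W a)) (g : Γ) :
    sumRep ρ g = tot fun a => ρ a g := rfl

/-- A tuple with one component. -/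
theorem tot_single [CharZero k] [Fintype A] [DecidableEq A] (a : A) (X : Module.End k (W a)) :
    tot (Pi.single a X : ∀ a, Module.End k (W a)) = io k a X := by
  refine LinearMap.ext fun v => funext fun a' => ?_
  rw [tot_apply, io_apply, LinearMap.single_apply]
  by_cases h : a' = a
  · subst h
    rw [Pi.single_eq_same, Pi.single_eq_same]
  · rw [Pi.single_eq_of_ne h, Pi.single_eq_of_ne h, LinearMap.zero_apply]

end tot

variable {k : Type} [Field k] [CharZero k] {A : Type} [Fintype A] [DecidableEq A] {V : A → Type}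
  [∀ a, AddCommGroup (V a)] [∀ a, Module k (V a)] {M : Type} [AddCommGroup M] [Module k M]
  {Γ : Type} [Group Γ] (ρ : ∀ a, Representation k Γ (V a)) (τ : Representation k Γ M)
  (frm : A → Prop) (ω : ∀ a, V a →ₗ[k] V a →ₗ[k] k)

/-- The operator of a tuple on the sum of all `V a` and their duals. -/
abbrev th (X : ∀ a, Module.End k (V a)) : Module.End k (HH k V) :=
  tot (W := fun a => V a × Dual k (V a)) fun a => hat (X a)

/-- The tuples of operators which are skew for the forms and kill all scalar components of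
equivariant maps. -/
def lieT : Submodule k (∀ a, Module.End k (V a)) where
  carrier := {X | (∀ a, frm a → ∀ u v, ω a (X a u) v + ω a u (X a v) = 0) ∧
    ∀ (κ : Type) [Fintype κ] [DecidableEq κ]
    (φ : MultilinearMap k (fun _ : κ => HH k V) M) (l : M →ₗ[k] k),
      IsEqv (RR ρ) τ φ → Kills (th X) (l.compMultilinearMap φ)}
  zero_mem' := ⟨fun a _ u v => by
      rw [Pi.zero_apply, LinearMap.zero_apply, LinearMap.zero_apply, map_zero, map_zero,
        LinearMap.zero_apply, add_zero], fun κ _ _ φ l _ => by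
      have h1 : th (0 : ∀ a, Module.End k (V a)) = 0 := by
        unfold th
        simp only [Pi.zero_apply, hat_zero]
        rfl
      rw [h1]
      exact kills_zero⟩
  add_mem' := fun {X Y} hX hY => ⟨fun a ha u v => by
      rw [Pi.add_apply, LinearMap.add_apply, LinearMap.add_apply, map_add, map_add,
        LinearMap.add_apply]
      linear_combination hX.1 a ha u v + hY.1 a ha u v, fun κ _ _ φ l h => by
      have h1 : th (X + Y) = th X + th Y := by
        unfold th
        simp only [Pi.add_apply, hat_add]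
        rfl
      rw [h1]
      exact kills_add (hX.2 κ φ l h) (hY.2 κ φ l h)⟩
  smul_mem' := fun c X hX => ⟨fun a ha u v => by
      rw [Pi.smul_apply, LinearMap.smul_apply, LinearMap.smul_apply, map_smul, map_smul,
        LinearMap.smul_apply, smul_eq_mul, smul_eq_mul]
      linear_combination c * hX.1 a ha u v, fun κ _ _ φ l h => by
      have h1 : th (c • X) = c • th X := by
        unfold th
        simp only [Pi.smul_apply, hat_smul]
        rfl
      rw [h1]
      exact kills_smul c (hX.2 κ φ l h)⟩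

theorem th_br (X Y : ∀ a, Module.End k (V a)) :
    th (fun a => X a * Y a - Y a * X a) = th X * th Y - th Y * th X := by
  unfold th
  simp only [hat_br]
  rfl

theorem th_smul (c : k) (X : ∀ a, Module.End k (V a)) :
    th (fun a => c • X a) = c • th X := by
  unfold th
  simp only [hat_smul]
  rfl

theorem th_conj (s : Γ) (X : ∀ a, Module.End k (V a)) :
    th (fun a => ρ a s * X a * ρ a s⁻¹) = RR ρ s * th X * RR ρ s⁻¹ := by
  unfold th
  simp only [← hat_conj]
  rfl

theorem th_single (a : A) (X : Module.End k (V a)) :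
    th (Pi.single a X : ∀ a, Module.End k (V a)) = ih a X := by
  unfold th ih
  rw [← tot_single]
  refine congrArg tot (funext fun a' => ?_)
  by_cases h : a' = a
  · subst h
    rw [Pi.single_eq_same, Pi.single_eq_same]
  · rw [Pi.single_eq_of_ne h, Pi.single_eq_of_ne h, hat_zero]

variable {ρ τ frm ω}

theorem lieT_skew {X : ∀ a, Module.End k (V a)} (hX : X ∈ lieT ρ τ frm ω) {a : A} (ha : frm a)
    (u v : V a) : ω a (X a u) v + ω a u (X a v) = 0 := hX.1 a ha u v

theorem lieT_bracket {X Y : ∀ a, Module.End k (V a)} (hX : X ∈ lieT ρ τ frm ω)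
    (hY : Y ∈ lieT ρ τ frm ω) : (fun a => X a * Y a - Y a * X a) ∈ lieT ρ τ frm ω := by
  refine ⟨fun a ha u w => ?_, fun κ _ _ φ l h => ?_⟩
  · rw [LinearMap.sub_apply, LinearMap.sub_apply, Module.End.mul_apply, Module.End.mul_apply,
      Module.End.mul_apply, Module.End.mul_apply, map_sub, map_sub, LinearMap.sub_apply]
    linear_combination hX.1 a ha (Y a u) w - hY.1 a ha (X a u) w + hX.1 a ha u (Y a w) -
      hY.1 a ha u (X a w)
  · rw [th_br]
    exact kills_bracket (hX.2 κ φ l h) (hY.2 κ φ l h)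

theorem lieT_conj (s : Γ) (hω : ∀ a, frm a → ∃ c : k, ∀ u v, ω a (ρ a s u) (ρ a s v) = c * ω a u v)
    {X : ∀ a, Module.End k (V a)} (hX : X ∈ lieT ρ τ frm ω) :
    (fun a => ρ a s * X a * ρ a s⁻¹) ∈ lieT ρ τ frm ω := by
  refine ⟨fun a ha u w => ?_, fun κ _ _ φ l h => ?_⟩
  · have hinv : ∀ v, ρ a s (ρ a s⁻¹ v) = v := fun v => by
      rw [← Module.End.mul_apply, ← map_mul, mul_inv_cancel, map_one, Module.End.one_apply]
    obtain ⟨c, hc⟩ := hω a ha
    have h1 := hX.1 a ha (ρ a s⁻¹ u) (ρ a s⁻¹ w)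
    have h2 := hc (X a (ρ a s⁻¹ u)) (ρ a s⁻¹ w)
    have h3 := hc (ρ a s⁻¹ u) (X a (ρ a s⁻¹ w))
    rw [hinv] at h2 h3
    change ω a (ρ a s (X a (ρ a s⁻¹ u))) w + ω a u (ρ a s (X a (ρ a s⁻¹ w))) = 0
    rw [h2, h3, ← mul_add, h1, mul_zero]
  · rw [th_conj]
    refine kills_conj (RR ρ) s ?_
    have h1 := hX.2 κ _ (l.comp (τ s)) (eqv_pull (RR ρ) τ h s)
    have h2 : (l.compMultilinearMap φ).compLinearMap (fun _ => RR ρ s) =
        (l.comp (τ s)).compMultilinearMap ((τ s⁻¹).compMultilinearMap
          (φ.compLinearMap (fun _ => RR ρ s))) := by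
      refine MultilinearMap.ext fun v => ?_
      change l (φ (fun j => RR ρ s (v j))) = l (τ s (τ s⁻¹ (φ (fun j => RR ρ s (v j)))))
      rw [← Module.End.mul_apply, ← map_mul, mul_inv_cancel, map_one]
      rfl
    rw [h2]
    exact h1

theorem lieT_opp [∀ a, FiniteDimensional k (V a)] (X Y : ∀ a, Module.End k (V a)) (c : k)
    (hX : X ∈ lieT ρ τ frm ω) (hY : ∀ a, frm a → ∀ u v, ω a (Y a u) v + ω a u (Y a v) = 0)
    (hH : (fun a => X a * Y a - Y a * X a) ∈ lieT ρ τ frm ω)
    (hHY : ∀ a, (X a * Y a - Y a * X a) * Y a - Y a * (X a * Y a - Y a * X a) = c • Y a)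
    (hc : c ≠ 0) : Y ∈ lieT ρ τ frm ω := by
  refine ⟨hY, fun κ _ _ φ l h => ?_⟩
  have h1 := hH.2 κ φ l h
  rw [th_br] at h1
  refine kills_opposite hc ?_ (hX.2 κ φ l h) h1
  rw [← th_br, ← th_smul, ← th_br]
  exact congrArg th (funext hHY)

end

end Pool.Agent.Helper86.OP
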