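import Pool.Agent.Helper86.OP.LieT
import Pool.Agent.Helper2.GLM.Log

/-!
# The principal triple of a place of maximally unipotent monodromy, for several pieces
-/

set_option autoImplicit false
set_option linter.unusedSectionVars false

namespace Pool.Agent.Helper86.OP

open Module Finset Pool.Agent.Y126.JB Pool.Agent.Y126.MU Pool.Agent.V1141.OF
  Pool.Agent.TH118.SG Pool.Agent.Y130 Pool.Agent.Helper86.LT Pool.Agent.Helper2.MU
  Pool.Agent.Helper2.GLM Pool.Agent.TH125.Gal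
open Pool.Agent.H204R3.CM Pool.Agent.H204R3.SP Pool.Agent.H204R3.GP
open Pool.Agent.K3h45.MU (skew_h skew_f)
open Pool.Agent.Y137.MV (IsEqv kills_zero kills_add kills_smul kills_conj eqv_pull dd_kills)

section chain

variable {k : Type} [Field k] [CharZero k] [IsAlgClosed k] {V : Type} [AddCommGroup V] [Module k V]
  [FiniteDimensional k V] {Γ : Type} [Group Γ] {σ : Representation k Γ V}

/-- The chain of a unipotent element with one Jordan block. -/
theorem exists_chain {γ φ₀ : Γ} {q n : ℕ} (hn : (σ γ - 1) ^ n = 0)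
    (hγ2 : (σ γ - 1) ^ (finrank k V - 1) ≠ 0) (hq : 2 ≤ q)
    (hφγ : σ φ₀ * σ γ = σ γ ^ q * σ φ₀) :
    ∃ (D : ℕ) (w : ℕ → V) (h f : End k V) (lam : k), finrank k V = D + 1 ∧ lam ≠ 0 ∧
      Prin (lg k (σ γ - 1) n) h f D w ∧ ∀ l, σ φ₀ (w l) = (lam * (q : k) ^ l) • w l := by
  have hpos : 0 < finrank k V := by
    rw [Module.finrank_pos_iff_exists_ne_zero]
    by_contra hcon
    push Not at hcon
    apply hγ2
    refine LinearMap.ext fun v => ?_
    rw [hcon v, map_zero, map_zero]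
  obtain ⟨D, hdim⟩ : ∃ D, finrank k V = D + 1 := ⟨finrank k V - 1, by omega⟩
  rw [hdim, Nat.add_sub_cancel] at hγ2
  obtain ⟨e, he⟩ : ∃ e, e = lg k (σ γ - 1) n := ⟨_, rfl⟩
  obtain ⟨W, hW, hcomm, hlg⟩ := lg_eq (K := k) (σ γ - 1) hn
  rw [← he] at hlg
  have henil : IsNilpotent e := ⟨n, by rw [hlg, hcomm.mul_pow, hn, zero_mul]⟩
  have heD : e ^ D ≠ 0 := by
    intro h0
    apply hγ2
    rw [hlg, hcomm.mul_pow] at h0
    exact (hW.pow D).mul_left_eq_zero.1 h0
  obtain ⟨v, hv⟩ : ∃ v, (e ^ D) v ≠ 0 := by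
    by_contra hcon
    push Not at hcon
    exact heD (LinearMap.ext fun v => hcon v)
  have hφe : σ φ₀ * e = (q : k) • (e * σ φ₀) := by
    rw [he]
    exact lg_frob hn hφγ
  have hinj : Function.Injective (σ φ₀) := by
    intro x y hxy
    have h1 := congrArg (σ φ₀⁻¹) hxy
    rw [← Module.End.mul_apply, ← Module.End.mul_apply, ← map_mul, inv_mul_cancel, map_one] at h1
    exact h1
  have hqi : ∀ l : ℕ, l ≠ 0 → (q : k) ^ l ≠ 1 := by
    intro l hl h1
    have h2 : (q ^ l : ℕ) = 1 := by exact_mod_cast h1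
    have h3 : 1 < q ^ l := Nat.one_lt_pow hl (by omega)
    omega
  obtain ⟨u, lam, hlam, hφu, hu⟩ := exists_gen henil hdim hv hφe hinj hqi
  obtain ⟨h, f, hp⟩ := exists_prin henil hdim hu
  obtain ⟨w, hw⟩ : ∃ w : ℕ → V, w = fun l => (e ^ l) u := ⟨_, rfl⟩
  rw [← hw] at hp
  refine ⟨D, w, h, f, lam, hdim, hlam, by rw [← he]; exact hp, fun l => ?_⟩
  induction l with
  | zero =>
    rw [hw, pow_zero, mul_one]
    exact hφu
  | succ l ih =>
    rw [← hp.e_w, ← Module.End.mul_apply, hφe, LinearMap.smul_apply, Module.End.mul_apply, ih,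
      map_smul, smul_smul, pow_succ]
    congr 1
    ring

variable {e h f : End k V} {D : ℕ} {w : ℕ → V}

/-- The form on the chain. -/
theorem form_chain (hp : Prin e h f D w) {ω : V →ₗ[k] V →ₗ[k] k} {s : k}
    (hsym : ∀ u v, ω u v = s * ω v u) (hnd : ∀ u, (∀ v, ω v u = 0) → u = 0)
    (hes : ∀ u v, ω (e u) v + ω u (e v) = 0) {φ₀ : Γ} {c : k}
    (hω : ∀ u v, ω (σ φ₀ u) (σ φ₀ v) = c * ω u v) {q : ℕ} (hq : 2 ≤ q) {lam : k} (hlam : lam ≠ 0)
    (hφw : ∀ l, σ φ₀ (w l) = (lam * (q : k) ^ l) • w l) :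
    lam ^ 2 * (q : k) ^ D = c ∧ ∀ l l', l + l' ≠ D → ω (w l) (w l') = 0 := by
  have hnd' : ∀ u, (∀ v, ω u v = 0) → u = 0 := by
    intro u hu
    apply hnd
    intro v
    rw [hsym, hu, mul_zero]
  have hpair : ω (w 0) (w D) ≠ 0 := by
    intro h0
    apply hp.ne_zero (le_refl D)
    refine hnd' _ fun v => ?_
    have h1 : ∀ l, l ≤ D → w l ∈ LinearMap.ker (ω (w D)) := by
      intro l _
      rw [LinearMap.mem_ker]
      by_cases hl : l = 0
      · rw [hl, hsym, h0, mul_zero]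
      · have h2 := om_pow hes D (w 0) (w l)
        rw [hp.pow, hp.pow, zero_add, hp.zero (i := l + D) (by omega), map_zero, mul_zero] at h2
        exact h2
    exact LinearMap.mem_ker.1 (hp.mem_all h1 v)
  have hform : ∀ l l', ω (w l) (w l') ≠ 0 → c = lam ^ 2 * (q : k) ^ (l + l') := by
    intro l l' hll
    have h1 := hω (w l) (w l')
    rw [hφw, hφw, map_smul, map_smul, LinearMap.smul_apply, smul_eq_mul, smul_eq_mul] at h1
    have h2 : (c - lam ^ 2 * (q : k) ^ (l + l')) * ω (w l) (w l') = 0 := by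
      rw [pow_add]
      linear_combination -h1
    exact sub_eq_zero.1 ((mul_eq_zero.1 h2).resolve_right hll)
  have hμ : lam ^ 2 * (q : k) ^ D = c := by
    have h1 := hform 0 D hpair
    rw [zero_add] at h1
    exact h1.symm
  refine ⟨hμ, ?_⟩
  intro l l' hll
  by_contra hne
  have h1 := hform l l' hne
  rw [← hμ] at h1
  have h2 : (q : k) ^ D = (q : k) ^ (l + l') := mul_left_cancel₀ (pow_ne_zero 2 hlam) h1
  have h3 : q ^ D = q ^ (l + l') := by exact_mod_cast h2
  exact hll (Nat.pow_right_injective hq h3).symm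

end chain

section fam

variable {k : Type} [Field k] [CharZero k] [IsAlgClosed k] {A : Type} [Fintype A]
  [DecidableEq A] {V : A → Type} [∀ a, AddCommGroup (V a)] [∀ a, Module k (V a)]
  [∀ a, FiniteDimensional k (V a)] {M : Type} [AddCommGroup M] [Module k M]
  [FiniteDimensional k M] {Γ : Type} [Group Γ] (ρ : ∀ a, Representation k Γ (V a))
  (τ : Representation k Γ M) (χ : Γ →* k) (wt : A → ℤ) (j : k →+* ℂ) (m : ℤ)
  (frm : A → Prop) (ω : ∀ a, V a →ₗ[k] V a →ₗ[k] k)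

omit [IsAlgClosed k] [Fintype A] [DecidableEq A] [∀ a, FiniteDimensional k (V a)] in
theorem tot_lg {W : A → Type} [∀ a, AddCommGroup (W a)] [∀ a, Module k (W a)]
    (Z : ∀ a, End k (W a)) (n : ℕ) : lg k (tot Z) n = tot fun a => lg k (Z a) n := by
  unfold lg Al
  rw [tot_sum]
  refine Finset.sum_congr rfl fun i _ => ?_
  rw [tot_smul, tot_pow]

/-- The logarithms of a unipotent element. -/
theorem lgT_mem {γ : Γ} {n : ℕ} (hn : ∀ a, (ρ a γ - 1) ^ n = 0) (hτ : τ γ = 1)
    (hω : ∀ a, frm a → ∀ x y, ω a (ρ a γ x) (ρ a γ y) = ω a x y) :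
    (fun a => lg k (ρ a γ - 1) n) ∈ lieT ρ τ frm ω := by
  have hsum : RR ρ γ - 1 = tot (W := fun a => V a × Dual k (V a)) fun a => dbl (ρ a) γ - 1 := rfl
  have hu : (RR ρ γ - 1) ^ n = 0 := by
    rw [hsum, ← tot_pow]
    refine LinearMap.ext fun v => funext fun a => ?_
    rw [tot_apply, dbl_nil (hn a)]
    rfl
  refine ⟨fun a ha => ?_, fun κ _ _ φ l hφ => ?_⟩
  · have h1 := lg_mem (B := ω a) (ρ := ρ a) (σ := (1 : Γ →* (k →ₗ[k] k))) (S := Fin 0)
      (g := γ) (hn a) (hω a ha) rfl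
    exact h1.1
  · obtain ⟨Δ, hΔ, h1⟩ := hφ
    obtain ⟨N, hN, hgN⟩ := exists_pow hΔ γ
    have h2 : Kill (lg k (RR ρ γ - 1) n) φ := by
      refine lg_kill φ hu ?_
      refine Set.infinite_of_injective_forall_mem (f := fun l : ℕ => N * l) ?_ ?_
      · intro l l' hl
        exact Nat.eq_of_mul_eq_mul_left hN hl
      · intro l v
        have h3 : γ ^ (N * l) ∈ Δ := by
          rw [pow_mul]
          exact Subgroup.pow_mem _ hgN l
        have h4 := h1 _ h3 v
        rw [map_pow, map_pow, hτ, one_pow] at h4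
        exact h4
    have h5 : th (fun a => lg k (ρ a γ - 1) n) = lg k (RR ρ γ - 1) n := by
      rw [hsum, tot_lg]
      unfold th
      refine congrArg tot (funext fun a => ?_)
      exact (lg_hat (hn a)).symm
    rw [h5]
    intro v
    have h3 := congrArg l (h2 v)
    rw [map_sum, map_zero] at h3
    exact h3

variable {D : A → ℕ} {e h f : ∀ a, End k (V a)} {w : ∀ a, ℕ → V a}

/-- **The operator `h` kills the components of equivariant maps.** -/
theorem hT_kills (hp : ∀ a, Prin (e a) (h a) (f a) (D a) (w a))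
    (hdim : ∀ a, finrank k (V a) = D a + 1) {F φ₀ : Γ}
    (hF : ‖j (χ F)‖ ≠ 1)
    (hV : ∀ a c, Module.End.HasEigenvalue (ρ a F) c → ‖j c‖ ^ 2 = ‖j (χ F)‖ ^ wt a)
    (hM : ∀ c, Module.End.HasEigenvalue (τ F) c → ‖j c‖ ^ 2 = ‖j (χ F)‖ ^ m)
    (hM' : ∀ c, Module.End.HasEigenvalue (τ φ₀) c → ‖j c‖ ^ 2 = ‖j (χ φ₀)‖ ^ m)
    {lam : A → k} {q : ℕ} (hq : 2 ≤ q) (hlam0 : ∀ a, lam a ≠ 0)
    (hw : ∀ a l, ρ a φ₀ (w a l) = (lam a * (q : k) ^ l) • w a l)
    (hlam : ∀ a, ‖j (lam a)‖ ^ 2 * (q : ℝ) ^ D a = ‖j (χ φ₀)‖ ^ wt a)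
    {κ : Type} [Fintype κ] [DecidableEq κ] (φ : MultilinearMap k (fun _ : κ => HH k V) M)
    (l : M →ₗ[k] k) (hφ : IsEqv (RR ρ) τ φ) : Kills (th h) (l.compMultilinearMap φ) := by
  classical
  have hpos : 0 < ‖j (χ φ₀)‖ := chi_pos χ j
  have hq0 : (0 : ℝ) < q := Nat.cast_pos.2 (by omega)
  have hqk : (q : k) ≠ 0 := Nat.cast_ne_zero.2 (by omega)
  have key : ∀ i', ∃ (ι ι' : Type) (_ : Fintype ι) (_ : Fintype ι') (b : Basis ι k (V i'))
      (b' : Basis ι' k (Dual k (V i'))) (β : ι ⊕ ι' → k) (n : ι ⊕ ι' → ℤ),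
      (∀ x, b.prod b' x ∈ Module.End.maxGenEigenspace (dbl (ρ i') φ₀) (β x)) ∧
      (∀ x, ‖j (β x)‖ ^ 2 = ‖j (χ φ₀)‖ ^ sg (wt i') (Sum.isLeft x) * (q : ℝ) ^ n x) ∧
      ∀ x, th h (LinearMap.single k (fun i => V i × Dual k (V i)) i' (b.prod b' x)) =
        ((n x : ℤ) : k) • LinearMap.single k (fun i => V i × Dual k (V i)) i' (b.prod b' x) := by
    intro i'
    obtain ⟨b, hb⟩ := (hp i').exists_basis (hdim i')
    have hnorm : ∀ x : ℕ, ‖j (lam i' * (q : k) ^ x)‖ ^ 2 =
        ‖j (χ φ₀)‖ ^ wt i' * (q : ℝ) ^ (2 * (x : ℤ) - D i') := by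
      intro x
      rw [← hlam, map_mul, map_pow, norm_mul, norm_pow, map_natCast, Complex.norm_natCast,
        mul_pow, mul_assoc]
      congr 1
      rw [← zpow_natCast (q : ℝ) (D i'), ← zpow_add₀ hq0.ne', ← pow_mul, ← zpow_natCast]
      congr 1
      push_cast
      ring
    have hts : ∀ x : V i' × Dual k (V i'),
        th h (LinearMap.single k (fun i => V i × Dual k (V i)) i' x) =
          LinearMap.single k (fun i => V i × Dual k (V i)) i' (hat (h i') x) := by
      intro x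
      refine funext fun a => ?_
      rw [tot_apply, LinearMap.single_apply, LinearMap.single_apply]
      by_cases ha : a = i'
      · subst ha
        rw [Pi.single_eq_same, Pi.single_eq_same]
      · rw [Pi.single_eq_of_ne ha, Pi.single_eq_of_ne ha, map_zero]
    refine ⟨Fin (D i' + 1), Fin (D i' + 1), inferInstance, inferInstance, b, b.dualBasis,
      Sum.elim (fun x => lam i' * (q : k) ^ (x : ℕ)) (fun x => (lam i' * (q : k) ^ (x : ℕ))⁻¹),
      Sum.elim (fun x => 2 * (x : ℕ) - D i') (fun x => -(2 * (x : ℕ) - D i')), ?_, ?_, ?_⟩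
    · rintro (x | x)
      · rw [prod_inl]
        refine inl_gen (ρ i') (mem_gen.2 ⟨1, ?_⟩)
        rw [pow_one, LinearMap.sub_apply, hb, hw, Module.algebraMap_end_apply, Sum.elim_inl,
          sub_self]
      · rw [prod_inr]
        refine inr_gen (ρ i') (mem_gen.2 ⟨1, ?_⟩)
        rw [pow_one, LinearMap.sub_apply, Module.algebraMap_end_apply, Sum.elim_inr, sub_eq_zero]
        refine b.ext fun y => ?_
        rw [LinearMap.dualMap_apply, LinearMap.smul_apply]
        have h1 : ρ i' φ₀⁻¹ (b y) = (lam i' * (q : k) ^ (y : ℕ))⁻¹ • b y := by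
          have h2 : ρ i' φ₀⁻¹ (ρ i' φ₀ (b y)) = b y := by
            rw [← Module.End.mul_apply, ← map_mul, inv_mul_cancel, map_one,
              Module.End.one_apply]
          rw [hb, hw, map_smul] at h2
          have h3 : lam i' * (q : k) ^ (y : ℕ) ≠ 0 := mul_ne_zero (hlam0 i') (pow_ne_zero _ hqk)
          rw [hb]
          nth_rw 2 [← h2]
          rw [smul_smul, inv_mul_cancel₀ h3, one_smul]
        rw [h1, map_smul]
        by_cases hxy : y = x
        · rw [hxy]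
        · rw [Basis.dualBasis_apply, Basis.repr_self, Finsupp.single_apply, if_neg hxy,
            smul_zero, smul_zero]
    · rintro (x | x)
      · exact hnorm x
      · change ‖j (lam i' * (q : k) ^ (x : ℕ))⁻¹‖ ^ 2 = ‖j (χ φ₀)‖ ^ (-wt i') *
          (q : ℝ) ^ (-(2 * ((x : ℕ) : ℤ) - D i'))
        rw [map_inv₀, norm_inv, inv_pow, hnorm, mul_inv, zpow_neg, zpow_neg]
    · rintro (x | x)
      · rw [prod_inl, Sum.elim_inl, hts, hat_apply, map_zero, neg_zero, hb, (hp i').h_w,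
          ← map_smul, Prod.smul_mk, smul_zero]
        congr 3
        push_cast
        ring
      · rw [prod_inr, Sum.elim_inr, hts, hat_apply, map_zero, ← map_smul, Prod.smul_mk, smul_zero]
        congr 2
        refine b.ext fun y => ?_
        rw [LinearMap.neg_apply, LinearMap.dualMap_apply, LinearMap.smul_apply, hb, (hp i').h_w,
          map_smul, ← hb, Basis.dualBasis_apply, Basis.repr_self, Finsupp.single_apply]
        by_cases hxy : y = x
        · rw [if_pos hxy, hxy, smul_eq_mul, smul_eq_mul, mul_one, mul_one]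
          push_cast
          ring
        · rw [if_neg hxy, smul_zero, smul_zero, neg_zero]
  choose ι ι' _ _ b b' β n hb hβ hn using key
  have hE : ∀ x : Σ i, ι i ⊕ ι' i, (Pi.basis fun i => (b i).prod (b' i)) x =
      LinearMap.single k (fun i => V i × Dual k (V i)) x.1 ((b x.1).prod (b' x.1) x.2) :=
    fun x => by
      rw [Pi.basis_apply]
      rfl
  refine kills_of_basis (Pi.basis fun i => (b i).prod (b' i)) _ _ fun K => ?_
  have h1 : ∀ s, (l.compMultilinearMap φ) (Function.update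
      (fun s => (Pi.basis fun i => (b i).prod (b' i)) (K s)) s
      (th h ((Pi.basis fun i => (b i).prod (b' i)) (K s)))) =
      ((n (K s).1 (K s).2 : ℤ) : k) *
        l (φ (fun s => (Pi.basis fun i => (b i).prod (b' i)) (K s))) := by
    intro s
    have h2 : th h ((Pi.basis fun i => (b i).prod (b' i)) (K s)) =
        ((n (K s).1 (K s).2 : ℤ) : k) • (Pi.basis fun i => (b i).prod (b' i)) (K s) := by
      rw [hE]
      exact hn _ _
    rw [h2, MultilinearMap.map_update_smul, smul_eq_mul,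
      Function.update_eq_self s (fun s => (Pi.basis fun i => (b i).prod (b' i)) (K s))]
    rfl
  rw [Finset.sum_congr rfl fun s _ => h1 s, ← Finset.sum_mul]
  by_cases h0 : φ (fun s => (Pi.basis fun i => (b i).prod (b' i)) (K s)) = 0
  · rw [h0, map_zero, mul_zero]
  · have h3 := wt_sumA ρ τ χ wt j m hF hV hM hφ (fun s => (K s).1)
      (fun s => Sum.isLeft (K s).2) (fun s => (Pi.basis fun i => (b i).prod (b' i)) (K s))
      (fun s => by
        rw [hE]
        refine ⟨fun i' hi' => Pi.single_eq_of_ne hi' _, fun hs => ?_, fun hs => ?_⟩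
        · have h2 : (LinearMap.single k (fun i => V i × Dual k (V i)) (K s).1
              ((b (K s).1).prod (b' (K s).1) (K s).2)) (K s).1 =
              (b (K s).1).prod (b' (K s).1) (K s).2 := Pi.single_eq_same _ _
          rw [h2]
          rcases h6 : (K s).2 with x | x
          · exact Basis.prod_apply_inl_snd _ _ x
          · rw [h6, Sum.isLeft_inr] at hs
            exact absurd hs Bool.false_ne_true
        · have h2 : (LinearMap.single k (fun i => V i × Dual k (V i)) (K s).1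
              ((b (K s).1).prod (b' (K s).1) (K s).2)) (K s).1 =
              (b (K s).1).prod (b' (K s).1) (K s).2 := Pi.single_eq_same _ _
          rw [h2]
          rcases h6 : (K s).2 with x | x
          · rw [h6, Sum.isLeft_inl] at hs
            exact absurd hs.symm Bool.false_ne_true
          · exact Basis.prod_apply_inr_fst _ _ x) h0
    have h2 : φ (fun s => LinearMap.single k (fun i => V i × Dual k (V i)) (K s).1
        ((b (K s).1).prod (b' (K s).1) (K s).2)) ≠ 0 := by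
      simpa only [hE] using h0
    obtain ⟨a, ha, h4⟩ := norm_eig (ρ := RR ρ) (τ := τ) j
      (fun x : Σ i, ι i ⊕ ι' i => LinearMap.single k (fun i => V i × Dual k (V i)) x.1
        ((b x.1).prod (b' x.1) x.2)) (fun x => β x.1 x.2) φ₀
      (fun x => single_gen (V := fun i => V i × Dual k (V i)) (fun i => dbl (ρ i)) (hb x.1 x.2))
      hφ K h2
    have h5 := hM' a ha
    rw [h4, ← Finset.prod_pow, Finset.prod_congr rfl fun s _ => hβ (K s).1 (K s).2,
      Finset.prod_mul_distrib, prod_zpow_sum _ hpos.ne', h3, prod_zpow_sum _ hq0.ne'] at h5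
    have h7 : (q : ℝ) ^ (∑ s, n (K s).1 (K s).2) = 1 :=
      mul_left_cancel₀ (zpow_ne_zero _ hpos.ne') (h5.trans (mul_one _).symm)
    have h8 : ∑ s, n (K s).1 (K s).2 = 0 := by
      refine zpow_right_injective₀ hq0 ?_ (h7.trans (zpow_zero _).symm)
      have h9 : (2 : ℝ) ≤ q := by exact_mod_cast hq
      linarith
    have h9 : ∑ s, ((n (K s).1 (K s).2 : ℤ) : k) = 0 := by
      rw [← Int.cast_sum, h8, Int.cast_zero]
    rw [h9, zero_mul]

/-- **The principal triple of the place.** -/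
theorem place {γ φ₀ F : Γ} {q : ℕ} {s : A → k}
    (hsym : ∀ a, frm a → ∀ u v, ω a u v = s a * ω a v u)
    (hnd : ∀ a, frm a → ∀ u, (∀ v, ω a v u = 0) → u = 0)
    (hω : ∀ a, frm a → ∀ g u v, ω a (ρ a g u) (ρ a g v) = χ g ^ wt a * ω a u v)
    (hF : ‖j (χ F)‖ ≠ 1)
    (hV : ∀ a c, Module.End.HasEigenvalue (ρ a F) c → ‖j c‖ ^ 2 = ‖j (χ F)‖ ^ wt a)
    (hM : ∀ c, Module.End.HasEigenvalue (τ F) c → ‖j c‖ ^ 2 = ‖j (χ F)‖ ^ m)
    (hγ1 : ∀ a, IsNilpotent (ρ a γ - 1))
    (hγ2 : ∀ a, (ρ a γ - 1) ^ (finrank k (V a) - 1) ≠ 0)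
    (hγ4 : τ γ = 1) (hγ5 : χ γ = 1)
    (hq : 2 ≤ q) (hφγ : ∀ a, ρ a φ₀ * ρ a γ = ρ a γ ^ q * ρ a φ₀)
    (hM' : ∀ c, Module.End.HasEigenvalue (τ φ₀) c → ‖j c‖ ^ 2 = ‖j (χ φ₀)‖ ^ m)
    (hdet : ∀ a, ¬ frm a →
      ‖j (LinearMap.det (ρ a φ₀))‖ ^ 2 = ‖j (χ φ₀)‖ ^ (wt a * (finrank k (V a) : ℤ))) :
    ∃ (D : A → ℕ) (w : ∀ a, ℕ → V a) (e h f : ∀ a, End k (V a)),
      (∀ a, finrank k (V a) = D a + 1) ∧ (∀ a, Prin (e a) (h a) (f a) (D a) (w a)) ∧
      e ∈ lieT ρ τ frm ω ∧ h ∈ lieT ρ τ frm ω ∧ f ∈ lieT ρ τ frm ω ∧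
      ∀ a, frm a → ∀ l l', l + l' ≠ D a → ω a (w a l) (w a l') = 0 := by
  classical
  have hχ : ∀ g, χ g ≠ 0 := fun g h0 => by
    have h4 : χ g * χ g⁻¹ = 1 := by rw [← map_mul, mul_inv_cancel, map_one]
    rw [h0, zero_mul] at h4
    exact zero_ne_one h4
  -- a common exponent
  obtain ⟨n, hn⟩ : ∃ n, ∀ a, (ρ a γ - 1) ^ n = 0 := by
    choose n hn using fun a => hγ1 a
    refine ⟨∑ a, n a, fun a => ?_⟩
    exact pow_eq_zero_of_le (Finset.single_le_sum (fun a _ => Nat.zero_le (n a))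
      (Finset.mem_univ a)) (hn a)
  choose D w h f lam hdim hlam hp hφw using fun a =>
    exists_chain (σ := ρ a) (hn a) (hγ2 a) hq (hφγ a)
  obtain ⟨e, he⟩ : ∃ e : ∀ a, End k (V a), e = fun a => lg k (ρ a γ - 1) n := ⟨_, rfl⟩
  have hp' : ∀ a, Prin (e a) (h a) (f a) (D a) (w a) := by
    intro a
    rw [he]
    exact hp a
  have heL : e ∈ lieT ρ τ frm ω := by
    rw [he]
    refine lgT_mem ρ τ frm ω hn hγ4 fun a ha x y => ?_
    rw [hω a ha, hγ5, one_zpow, one_mul]
  have hfc : ∀ a, frm a → lam a ^ 2 * (q : k) ^ D a = χ φ₀ ^ wt a ∧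
      ∀ l l', l + l' ≠ D a → ω a (w a l) (w a l') = 0 := fun a ha =>
    form_chain (hp' a) (hsym a ha) (hnd a ha) (fun u v => heL.1 a ha u v)
      (hω a ha φ₀) hq (hlam a) (hφw a)
  have hnorm : ∀ a, ‖j (lam a)‖ ^ 2 * (q : ℝ) ^ D a = ‖j (χ φ₀)‖ ^ wt a := by
    intro a
    by_cases ha : frm a
    · have h1 := congrArg (fun z => ‖j z‖) (hfc a ha).1
      simp only [map_mul, map_pow, map_zpow₀, norm_mul, norm_pow, norm_zpow, map_natCast,
        Complex.norm_natCast] at h1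
      exact h1
    · exact det_norm j (hp' a) (hdim a) (hφw a) (chi_pos χ j) (hdet a ha)
  have hhL : h ∈ lieT ρ τ frm ω := by
    refine ⟨fun a ha => skew_h (hp' a) (hfc a ha).2, fun κ _ _ φ l hφ => ?_⟩
    exact hT_kills ρ τ χ wt j m hp' hdim hF hV hM hM' hq hlam hφw hnorm φ l hφ
  have hef : ∀ a, e a * f a - f a * e a = h a := fun a => (hp' a).ef.symm
  refine ⟨D, w, e, h, f, hdim, hp', heL, hhL, ?_, fun a ha => (hfc a ha).2⟩
  refine lieT_opp e f (-2) heL (fun a ha => skew_f (hp' a) (fun u v => heL.1 a ha u v)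
    (hfc a ha).2) ?_ (fun a => ?_) (by norm_num)
  · simp only [hef]
    exact hhL
  · rw [hef]
    exact (hp' a).hf

end fam

end Pool.Agent.Helper86.OP
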